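import Mathlib

/-!
Intersections of a localization `D_P` with infinitely many discrete valuation rings:
order functions and the approximation lemma.
-/

namespace Pool.Agent.Q238.Chomp

open Function

/-- A discrete order function on a field (the value at `0` is irrelevant). -/
structure OrdFn (K : Type*) [Field K] where
  ord : K → ℤ
  ord_mul : ∀ x y, x ≠ 0 → y ≠ 0 → ord (x * y) = ord x + ord y
  ord_add : ∀ x y, x ≠ 0 → y ≠ 0 → x + y ≠ 0 → min (ord x) (ord y) ≤ ord (x + y)

namespace OrdFn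

variable {K : Type*} [Field K] (o : OrdFn K)

theorem ord_one : o.ord 1 = 0 := by
  have := o.ord_mul 1 1 one_ne_zero one_ne_zero
  rw [mul_one] at this
  omega

theorem ord_neg_one : o.ord (-1) = 0 := by
  have := o.ord_mul (-1) (-1) (neg_ne_zero.2 one_ne_zero) (neg_ne_zero.2 one_ne_zero)
  rw [neg_mul_neg, mul_one, o.ord_one] at this
  omega

theorem ord_neg {x : K} (hx : x ≠ 0) : o.ord (-x) = o.ord x := by
  have := o.ord_mul (-1) x (neg_ne_zero.2 one_ne_zero) hx
  rw [neg_one_mul, o.ord_neg_one] at this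
  omega

theorem ord_inv {x : K} (hx : x ≠ 0) : o.ord x⁻¹ = -o.ord x := by
  have := o.ord_mul x x⁻¹ hx (inv_ne_zero hx)
  rw [mul_inv_cancel₀ hx, o.ord_one] at this
  omega

theorem ord_div {x y : K} (hx : x ≠ 0) (hy : y ≠ 0) : o.ord (x / y) = o.ord x - o.ord y := by
  rw [div_eq_mul_inv, o.ord_mul _ _ hx (inv_ne_zero hy), o.ord_inv hy]
  ring

/-- The order of `x` is at least `n` (or `x = 0`). -/
def ge (n : ℤ) (x : K) : Prop := x = 0 ∨ n ≤ o.ord x

variable {o}

theorem ge_zero (n : ℤ) : o.ge n 0 := Or.inl rfl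

theorem ge.mono {m n : ℤ} {x : K} (h : o.ge n x) (hmn : m ≤ n) : o.ge m x := by
  rcases h with h | h
  · exact Or.inl h
  · exact Or.inr (by omega)

theorem ge.add {n : ℤ} {x y : K} (hx : o.ge n x) (hy : o.ge n y) : o.ge n (x + y) := by
  by_cases h0 : x = 0
  · simpa [h0] using hy
  by_cases h1 : y = 0
  · simpa [h1] using hx
  by_cases h2 : x + y = 0
  · exact Or.inl h2
  right
  have := o.ord_add x y h0 h1 h2
  rcases hx with hx | hx
  · exact absurd hx h0
  rcases hy with hy | hy
  · exact absurd hy h1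
  exact le_trans (le_min hx hy) this

theorem ge.neg {n : ℤ} {x : K} (hx : o.ge n x) : o.ge n (-x) := by
  rcases hx with hx | hx
  · left; simp [hx]
  · by_cases h0 : x = 0
    · left; simp [h0]
    · right; rwa [o.ord_neg h0]

theorem ge.sub {n : ℤ} {x y : K} (hx : o.ge n x) (hy : o.ge n y) : o.ge n (x - y) := by
  rw [sub_eq_add_neg]; exact hx.add hy.neg

theorem ge.mul {m n : ℤ} {x y : K} (hx : o.ge m x) (hy : o.ge n y) : o.ge (m + n) (x * y) := by
  by_cases h0 : x = 0
  · left; simp [h0]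
  by_cases h1 : y = 0
  · left; simp [h1]
  right
  rcases hx with hx | hx
  · exact absurd hx h0
  rcases hy with hy | hy
  · exact absurd hy h1
  rw [o.ord_mul _ _ h0 h1]
  omega

theorem ge.mul_left {n : ℤ} {x y : K} (hx : o.ge 0 x) (hy : o.ge n y) : o.ge n (x * y) := by
  simpa using hx.mul hy

theorem ge.mul_right {n : ℤ} {x y : K} (hx : o.ge n x) (hy : o.ge 0 y) : o.ge n (x * y) := by
  simpa using hx.mul hy

theorem ge_one : o.ge 0 1 := Or.inr (by rw [o.ord_one])

theorem ge_of_ord {x : K} : o.ge (o.ord x) x := Or.inr le_rfl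

theorem ge.sum {ι : Type*} {n : ℤ} (s : Finset ι) {f : ι → K} (h : ∀ i ∈ s, o.ge n (f i)) :
    o.ge n (∑ i ∈ s, f i) := by
  classical
  induction s using Finset.induction_on with
  | empty => simpa using ge_zero n
  | insert a s ha ih =>
    rw [Finset.sum_insert ha]
    exact (h a (Finset.mem_insert_self _ _)).add
      (ih (fun i hi => h i (Finset.mem_insert_of_mem hi)))

/-- If `x - y` has larger order than `y ≠ 0`, then `x` has the same order as `y`. -/
theorem ord_eq_of_sub {x y : K} (hy : y ≠ 0) (h : o.ge (o.ord y + 1) (x - y)) :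
    x ≠ 0 ∧ o.ord x = o.ord y := by
  have hx : x ≠ 0 := by
    rintro rfl
    rcases h with h | h
    · rw [zero_sub, neg_eq_zero] at h; exact hy h
    · rw [zero_sub, o.ord_neg hy] at h; omega
  refine ⟨hx, ?_⟩
  by_cases h0 : x - y = 0
  · rw [sub_eq_zero.1 h0]
  rcases h with h | h
  · exact absurd h h0
  have h1 := o.ord_add (x - y) y h0 hy (by simpa using hx)
  rw [sub_add_cancel] at h1
  have h1' : o.ord y ≤ o.ord x := le_trans (le_min (by omega) le_rfl) h1
  by_contra hne
  have h2 := o.ord_add x (-(x - y)) hx (neg_ne_zero.2 h0) (by simpa using hy)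
  rw [o.ord_neg h0] at h2
  have e : x + -(x - y) = y := by ring
  rw [e] at h2
  have : o.ord y + 1 ≤ min (o.ord x) (o.ord (x - y)) := le_min (by omega) h
  omega

end OrdFn

/-- The data: a domain `D` with fraction field `K`, a prime `P` of `D`, and a family of discrete
orders centered on pairwise distinct maximal ideals of `D`. -/
structure Setup (D K J : Type*) [CommRing D] [IsDomain D] [Field K] [Algebra D K]
    [IsFractionRing D K] where
  P : Ideal D
  hP : P.IsPrime
  o : J → OrdFn K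
  m : J → Ideal D
  hm : ∀ j, (m j).IsMaximal
  nonneg : ∀ j (f : D), f ≠ 0 → 0 ≤ (o j).ord (algebraMap D K f)
  pos_iff : ∀ j (f : D), f ≠ 0 → (0 < (o j).ord (algebraMap D K f) ↔ f ∈ m j)
  inj : Injective m
  fin : ∀ f : D, f ≠ 0 → {j | f ∈ m j}.Finite
  mP : ∀ j, ¬ m j ≤ P
  unif : ∀ j, ∃ x : K, x ≠ 0 ∧ (o j).ord x = 1
  big : ∀ x : K, x ≠ 0 → (∃ u : Dˣ, x = algebraMap D K u) ∨
    ∃ j, 2 ≤ (o j).ord x ∨ (o j).ord x ≤ -2

namespace Setup

variable {D K J : Type*} [CommRing D] [IsDomain D] [Field K] [Algebra D K]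
  [IsFractionRing D K] (S : Setup D K J)

/-- The localization `D_P` inside `K`. -/
noncomputable def A : Subalgebra D K :=
  haveI := S.hP
  Localization.subalgebra.ofField K S.P.primeCompl S.P.primeCompl_le_nonZeroDivisors

theorem mem_A {x : K} : x ∈ S.A ↔ ∃ (a s : D), s ∉ S.P ∧ x = algebraMap D K a / algebraMap D K s := by
  have := S.hP
  unfold A
  constructor
  · rintro ⟨a, s, hs, h⟩
    exact ⟨a, s, hs, by rw [h, div_eq_mul_inv]⟩
  · rintro ⟨a, s, hs, h⟩
    exact ⟨a, s, hs, by rw [h, div_eq_mul_inv]⟩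

theorem inj' : Injective (algebraMap D K) := IsFractionRing.injective D K

theorem ne0 {f : D} (hf : f ≠ 0) : algebraMap D K f ≠ 0 := by
  rw [Ne, map_eq_zero_iff _ (inj' (D := D) (K := K))]
  exact hf

theorem not_P_ne {f : D} (hf : f ∉ S.P) : f ≠ 0 := by
  rintro rfl; exact hf S.P.zero_mem

/-- The ring `R = D_P ∩ ⋂ V_j`. -/
noncomputable def R : Subring K where
  carrier := {x | x ∈ S.A ∧ ∀ j, (S.o j).ge 0 x}
  mul_mem' := fun hx hy => ⟨S.A.mul_mem hx.1 hy.1, fun j => (hx.2 j).mul_left (hy.2 j)⟩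
  one_mem' := ⟨S.A.one_mem, fun _ => OrdFn.ge_one⟩
  add_mem' := fun hx hy => ⟨S.A.add_mem hx.1 hy.1, fun j => (hx.2 j).add (hy.2 j)⟩
  zero_mem' := ⟨S.A.zero_mem, fun _ => OrdFn.ge_zero 0⟩
  neg_mem' := fun hx => ⟨S.A.neg_mem hx.1, fun j => (hx.2 j).neg⟩

theorem mem_R {x : K} : x ∈ S.R ↔ x ∈ S.A ∧ ∀ j, (S.o j).ge 0 x := Iff.rfl

theorem ge_D (j : J) (f : D) : (S.o j).ge 0 (algebraMap D K f) := by
  by_cases hf : f = 0
  · left; simp [hf]
  · right; exact S.nonneg j f hf

theorem D_mem_R (f : D) : algebraMap D K f ∈ S.R :=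
  ⟨S.A.algebraMap_mem f, fun j => S.ge_D j f⟩

/-- The ideal of elements of `D` of order at least `n`. -/
noncomputable def lev (j : J) (n : ℕ) : Ideal D where
  carrier := {f | (S.o j).ge n (algebraMap D K f)}
  add_mem' := by
    intro a b ha hb
    simp only [Set.mem_ofPred_eq, map_add] at *
    exact ha.add hb
  zero_mem' := by
    simp only [Set.mem_ofPred_eq, map_zero]
    exact OrdFn.ge_zero _
  smul_mem' := by
    intro c a ha
    simp only [Set.mem_ofPred_eq, smul_eq_mul, map_mul] at *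
    exact (S.ge_D j c).mul_left ha

theorem mem_lev {j : J} {n : ℕ} {f : D} : f ∈ S.lev j n ↔ (S.o j).ge n (algebraMap D K f) :=
  Iff.rfl

theorem m_le_lev (j : J) : S.m j ≤ S.lev j 1 := by
  intro f hf
  rw [mem_lev]
  by_cases h0 : f = 0
  · left; simp [h0]
  · right
    have := (S.pos_iff j f h0).2 hf
    push_cast
    omega

theorem pow_le_lev (j : J) (n : ℕ) : S.m j ^ n ≤ S.lev j n := by
  induction n with
  | zero =>
    intro f _
    rw [mem_lev]
    simpa using S.ge_D j f
  | succ n ih =>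
    rw [pow_succ, Ideal.mul_le]
    intro a ha b hb
    rw [mem_lev, map_mul]
    push_cast
    exact (S.mem_lev.1 (ih ha)).mul (by simpa using S.mem_lev.1 (S.m_le_lev j hb))

/-- Unit element of `D` away from a finite set of centers. -/
theorem crt (j : J) (I : Finset J) (n : ℕ) :
    ∃ u : D, (S.o j).ge n (algebraMap D K u - 1) ∧
      ∀ i ∈ I, i ≠ j → (S.o i).ge n (algebraMap D K u) := by
  classical
  set T : Finset J := insert j I with hT
  have hcop : Pairwise (IsCoprime on fun i : T => S.m i.1 ^ n) := by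
    intro a b hab
    have hne : S.m a.1 ≠ S.m b.1 := fun h => hab (Subtype.ext (S.inj h))
    have hc : IsCoprime (S.m a.1) (S.m b.1) :=
      Ideal.isCoprime_iff_sup_eq.2 (Ideal.IsMaximal.coprime_of_ne (S.hm a.1) (S.hm b.1) hne)
    exact hc.pow
  obtain ⟨u, hu⟩ := Ideal.exists_forall_sub_mem_ideal hcop
    (fun i : T => if i.1 = j then (1 : D) else 0)
  refine ⟨u, ?_, ?_⟩
  · have := hu ⟨j, Finset.mem_insert_self _ _⟩
    simp only [if_true] at this
    have := S.mem_lev.1 (S.pow_le_lev j n this)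
    simpa using this
  · intro i hi hij
    have := hu ⟨i, Finset.mem_insert_of_mem hi⟩
    simp only [hij, if_false, sub_zero] at this
    exact S.mem_lev.1 (S.pow_le_lev i n this)

/-- The element `e` close to `1` at `j`, close to `0` at `I \ {j}` and divisible by `a` in `D_P`. -/
theorem exists_e (j : J) (I : Finset J) (n : ℕ) (a : D) (ha : a ≠ 0) :
    ∃ b ∈ S.R, (S.o j).ge n (b - 1) ∧ (∀ i ∈ I, i ≠ j → (S.o i).ge n b) ∧
      ∃ w ∈ S.A, b = algebraMap D K a * w := by
  classical
  have := S.hP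
  have := S.hm j
  set α : ℕ := ((S.o j).ord (algebraMap D K a)).toNat with hα
  have hα' : (S.o j).ord (algebraMap D K a) = α := by
    rw [hα, Int.toNat_of_nonneg (S.nonneg j a ha)]
  -- choose `c`
  obtain ⟨c, hcP, hc1⟩ : ∃ c : D, c ∉ S.P ∧
      (S.o j).ge (α + n + 1) (algebraMap D K c - algebraMap D K a) := by
    by_cases haP : a ∈ S.P
    · have hnot : ¬ S.m j ^ (α + n + 1) ≤ S.P := by
        intro h
        exact S.mP j (Ideal.IsPrime.le_of_pow_le h)
      obtain ⟨e, he, heP⟩ := SetLike.not_le_iff_exists.1 hnot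
      refine ⟨a + e, fun h => heP (by simpa using S.P.sub_mem h haP), ?_⟩
      have := S.mem_lev.1 (S.pow_le_lev j _ he)
      rw [map_add, add_sub_cancel_left]
      exact_mod_cast this
    · exact ⟨a, haP, by simpa using OrdFn.ge_zero _⟩
  have hc0 : c ≠ 0 := S.not_P_ne hcP
  have haK := ne0 (K := K) ha
  have hcK := ne0 (K := K) hc0
  have hordc : (S.o j).ord (algebraMap D K c) = α := by
    have := (OrdFn.ord_eq_of_sub (o := S.o j) (x := algebraMap D K c) haK
      (hc1.mono (by rw [hα']; omega))).2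
    rw [this, hα']
  -- the finite set of places where `c` vanishes
  set Ic : Finset J := (S.fin c hc0).toFinset with hIc
  -- a bound for the orders of `c`
  obtain ⟨B, hB⟩ : ∃ B : ℕ, ∀ i ∈ Ic, (S.o i).ord (algebraMap D K c) ≤ B := by
    refine ⟨Ic.sup (fun i => ((S.o i).ord (algebraMap D K c)).toNat), fun i hi => ?_⟩
    have h1 : ((S.o i).ord (algebraMap D K c)).toNat ≤
        Ic.sup (fun i => ((S.o i).ord (algebraMap D K c)).toNat) :=
      Finset.le_sup (f := fun i => ((S.o i).ord (algebraMap D K c)).toNat) hi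
    have h2 := Int.self_le_toNat ((S.o i).ord (algebraMap D K c))
    omega
  obtain ⟨u, hu1, hu2⟩ := S.crt j (I ∪ Ic) (n + B)
  have hcinv : ∀ i, i ∉ Ic → (S.o i).ge 0 (algebraMap D K c)⁻¹ := by
    intro i hi
    right
    rw [(S.o i).ord_inv hcK]
    have h1 : ¬ 0 < (S.o i).ord (algebraMap D K c) := by
      rw [S.pos_iff i c hc0]
      simpa [hIc] using hi
    omega
  have hcinv' : ∀ i ∈ Ic, (S.o i).ge (-B) (algebraMap D K c)⁻¹ := by
    intro i hi
    right
    rw [(S.o i).ord_inv hcK]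
    have := hB i hi
    omega
  have hacj : (S.o j).ge n (algebraMap D K a / algebraMap D K c - 1) := by
    have e : algebraMap D K a / algebraMap D K c - 1 =
        (-(algebraMap D K c - algebraMap D K a)) * (algebraMap D K c)⁻¹ := by
      field_simp
      ring
    rw [e]
    have h1 : (S.o j).ge (-α) (algebraMap D K c)⁻¹ := by
      right
      rw [(S.o j).ord_inv hcK, hordc]
    exact (hc1.neg.mul h1).mono (by omega)
  refine ⟨algebraMap D K a / algebraMap D K c * algebraMap D K u, ⟨?_, ?_⟩, ?_, ?_, ?_⟩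
  · -- in `A`
    rw [mem_A]
    exact ⟨a * u, c, hcP, by rw [map_mul]; ring⟩
  · intro i
    by_cases hij : i = j
    · subst hij
      have h1 : (S.o i).ge 0 (algebraMap D K a / algebraMap D K c) := by
        have := (hacj.mono (by omega : (0 : ℤ) ≤ n)).add (OrdFn.ge_one (o := S.o i))
        simpa using this
      exact h1.mul_left (S.ge_D i u)
    · by_cases hic : i ∈ Ic
      · have h1 := hcinv' i hic
        have h2 := hu2 i (Finset.mem_union_right _ hic) hij
        have h3 := ((S.ge_D i a).mul h1).mul h2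
        rw [div_eq_mul_inv]
        exact h3.mono (by push_cast; omega)
      · rw [div_eq_mul_inv]
        exact ((S.ge_D i a).mul_left (hcinv i hic)).mul_left (S.ge_D i u)
  · -- close to `1` at `j`
    have e : algebraMap D K a / algebraMap D K c * algebraMap D K u - 1 =
        (algebraMap D K a / algebraMap D K c - 1) * algebraMap D K u +
          (algebraMap D K u - 1) := by ring
    rw [e]
    refine (hacj.mul_right (S.ge_D j u)).add (hu1.mono ?_)
    push_cast; omega
  · intro i hi hij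
    have h2 := hu2 i (Finset.mem_union_left _ hi) hij
    rw [div_eq_mul_inv]
    by_cases hic : i ∈ Ic
    · exact (((S.ge_D i a).mul (hcinv' i hic)).mul h2).mono (by push_cast; omega)
    · exact (((S.ge_D i a).mul_left (hcinv i hic)).mul_left h2).mono (by push_cast; omega)
  · refine ⟨algebraMap D K u / algebraMap D K c, ?_, by ring⟩
    rw [mem_A]
    exact ⟨u, c, hcP, rfl⟩

/-- The denominators of `x` only see finitely many places. -/
theorem fin_neg (x : K) (hx : x ≠ 0) : ∃ I : Finset J, ∀ i, i ∉ I → (S.o i).ord x = 0 := by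
  classical
  obtain ⟨g, h, hh, rfl⟩ := IsFractionRing.div_surjective (A := D) x
  have hh0 : h ≠ 0 := nonZeroDivisors.ne_zero hh
  have hg0 : g ≠ 0 := by rintro rfl; simp at hx
  refine ⟨(S.fin g hg0).toFinset ∪ (S.fin h hh0).toFinset, fun i hi => ?_⟩
  simp only [Finset.mem_union, Set.Finite.mem_toFinset, Set.mem_ofPred_eq, not_or] at hi
  rw [(S.o i).ord_div (ne0 hg0) (ne0 hh0)]
  have h1 := (S.pos_iff i g hg0).not.2 hi.1
  have h2 := (S.pos_iff i h hh0).not.2 hi.2
  have h3 := S.nonneg i g hg0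
  have h4 := S.nonneg i h hh0
  omega

/-- Approximation at a place `j`. -/
theorem approx (j : J) (I : Finset J) (n : ℕ) (a : D) (ha : a ≠ 0) (t : K)
    (ht : (S.o j).ge 0 t) :
    ∃ b ∈ S.R, (S.o j).ge n (b - t) ∧ (∀ i ∈ I, i ≠ j → (S.o i).ge n b) ∧
      ∃ w ∈ S.A, b = algebraMap D K a * w := by
  classical
  by_cases ht0 : t = 0
  · refine ⟨0, S.R.zero_mem, ?_, ?_, 0, S.A.zero_mem, by simp⟩
    · simpa [ht0] using OrdFn.ge_zero _
    · intro i _ _; exact OrdFn.ge_zero _
  obtain ⟨g, h, hh, rfl⟩ := IsFractionRing.div_surjective (A := D) t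
  have hh0 : h ≠ 0 := nonZeroDivisors.ne_zero hh
  have hg0 : g ≠ 0 := by rintro rfl; simp at ht0
  have hgK := ne0 (K := K) hg0
  have hhK := ne0 (K := K) hh0
  set Ih : Finset J := (S.fin h hh0).toFinset with hIh
  obtain ⟨B, hB⟩ : ∃ B : ℕ, ∀ i ∈ Ih, (S.o i).ord (algebraMap D K h) ≤ B := by
    refine ⟨Ih.sup (fun i => ((S.o i).ord (algebraMap D K h)).toNat), fun i hi => ?_⟩
    have h1 : ((S.o i).ord (algebraMap D K h)).toNat ≤
        Ih.sup (fun i => ((S.o i).ord (algebraMap D K h)).toNat) :=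
      Finset.le_sup (f := fun i => ((S.o i).ord (algebraMap D K h)).toNat) hi
    have h2 := Int.self_le_toNat ((S.o i).ord (algebraMap D K h))
    omega
  have hti : ∀ i, i ∉ Ih → (S.o i).ge 0 (algebraMap D K g / algebraMap D K h) := by
    intro i hi
    right
    rw [(S.o i).ord_div hgK hhK]
    have h1 : ¬ 0 < (S.o i).ord (algebraMap D K h) := by
      rw [S.pos_iff i h hh0]
      simpa [hIh] using hi
    have := S.nonneg i g hg0
    omega
  have hti' : ∀ i ∈ Ih, (S.o i).ge (-B) (algebraMap D K g / algebraMap D K h) := by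
    intro i hi
    right
    rw [(S.o i).ord_div hgK hhK]
    have := hB i hi
    have := S.nonneg i g hg0
    omega
  obtain ⟨e, heR, he1, he2, w, hw, hew⟩ := S.exists_e j (I ∪ Ih) (n + B) (a * h)
    (mul_ne_zero ha hh0)
  set t := algebraMap D K g / algebraMap D K h with htdef
  refine ⟨e * t, ⟨?_, ?_⟩, ?_, ?_, ?_⟩
  · have : e * t = algebraMap D K (a * g) * w := by
      rw [hew, htdef, map_mul, map_mul]; field_simp
    rw [this]
    exact S.A.mul_mem (S.A.algebraMap_mem _) hw
  · intro i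
    by_cases hij : i = j
    · subst hij
      exact (heR.2 i).mul_left ht
    · by_cases hih : i ∈ Ih
      · have h1 := he2 i (Finset.mem_union_right _ hih) hij
        exact (h1.mul (hti' i hih)).mono (by push_cast; omega)
      · exact (heR.2 i).mul_left (hti i hih)
  · have e1 : e * t - t = (e - 1) * t := by ring
    rw [e1]
    exact (he1.mul_right ht).mono (by push_cast; omega)
  · intro i hi hij
    have h1 := he2 i (Finset.mem_union_left _ hi) hij
    by_cases hih : i ∈ Ih
    · exact (h1.mul (hti' i hih)).mono (by push_cast; omega)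
    · exact (h1.mul_right (hti i hih)).mono (by push_cast; omega)
  · refine ⟨algebraMap D K g * w, S.A.mul_mem (S.A.algebraMap_mem _) hw, ?_⟩
    rw [hew, htdef, map_mul]; field_simp

/-- An element of `R` close to `0` at finitely many places and congruent to `1` modulo `a`
in `D_P`. -/
theorem exists_eA (I : Finset J) (n : ℕ) (a : D) (ha : a ≠ 0) :
    ∃ b ∈ S.R, (∀ i ∈ I, (S.o i).ge n b) ∧ ∃ w ∈ S.A, b - 1 = algebraMap D K a * w := by
  classical
  choose e heR he1 he2 w hw hew using fun j => S.exists_e j I n a ha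
  refine ⟨1 - ∑ j ∈ I, e j, ?_, ?_, -∑ j ∈ I, w j, ?_, ?_⟩
  · exact S.R.sub_mem S.R.one_mem (S.R.sum_mem (fun j _ => heR j))
  · intro i hi
    rw [← Finset.add_sum_erase _ _ hi]
    have e1 : 1 - (e i + ∑ j ∈ I.erase i, e j) = -(e i - 1) - ∑ j ∈ I.erase i, e j := by ring
    rw [e1]
    refine (he1 i).neg.sub (OrdFn.ge.sum _ ?_)
    intro j hj
    exact he2 j i hi (Finset.ne_of_mem_erase hj).symm
  · exact S.A.neg_mem (S.A.sum_mem (fun j _ => hw j))
  · have : ∑ j ∈ I, e j = algebraMap D K a * ∑ j ∈ I, w j := by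
      rw [Finset.mul_sum]
      exact Finset.sum_congr rfl (fun j _ => hew j)
    rw [this]; ring

/-- Approximation in `D_P`. -/
theorem approxA (I : Finset J) (n : ℕ) (a : D) (ha : a ≠ 0) (t : K) (ht : t ∈ S.A) :
    ∃ b ∈ S.R, (∀ i ∈ I, (S.o i).ge n b) ∧ ∃ w ∈ S.A, b - t = algebraMap D K a * w := by
  classical
  obtain ⟨g, h, hhP, rfl⟩ := S.mem_A.1 ht
  have hh0 : h ≠ 0 := S.not_P_ne hhP
  have hhK := ne0 (K := K) hh0
  set Ih : Finset J := (S.fin h hh0).toFinset with hIh
  obtain ⟨B, hB⟩ : ∃ B : ℕ, ∀ i ∈ Ih, (S.o i).ord (algebraMap D K h) ≤ B := by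
    refine ⟨Ih.sup (fun i => ((S.o i).ord (algebraMap D K h)).toNat), fun i hi => ?_⟩
    have h1 : ((S.o i).ord (algebraMap D K h)).toNat ≤
        Ih.sup (fun i => ((S.o i).ord (algebraMap D K h)).toNat) :=
      Finset.le_sup (f := fun i => ((S.o i).ord (algebraMap D K h)).toNat) hi
    have h2 := Int.self_le_toNat ((S.o i).ord (algebraMap D K h))
    omega
  have hinv : ∀ i, i ∉ Ih → (S.o i).ge 0 (algebraMap D K h)⁻¹ := by
    intro i hi
    right
    rw [(S.o i).ord_inv hhK]
    have h1 : ¬ 0 < (S.o i).ord (algebraMap D K h) := by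
      rw [S.pos_iff i h hh0]
      simpa [hIh] using hi
    omega
  have hinv' : ∀ i ∈ Ih, (S.o i).ge (-B) (algebraMap D K h)⁻¹ := by
    intro i hi
    right
    rw [(S.o i).ord_inv hhK]
    have := hB i hi
    omega
  obtain ⟨e, heR, he1, w, hw, hew⟩ := S.exists_eA (I ∪ Ih) (n + B) a ha
  refine ⟨e * (algebraMap D K g / algebraMap D K h), ⟨S.A.mul_mem heR.1 ht, ?_⟩, ?_, ?_⟩
  · intro i
    rw [div_eq_mul_inv]
    by_cases hih : i ∈ Ih
    · have h1 := he1 i (Finset.mem_union_right _ hih)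
      exact (h1.mul ((S.ge_D i g).mul (hinv' i hih))).mono (by push_cast; omega)
    · exact (heR.2 i).mul_left ((S.ge_D i g).mul_left (hinv i hih))
  · intro i hi
    have h1 := he1 i (Finset.mem_union_left _ hi)
    rw [div_eq_mul_inv]
    by_cases hih : i ∈ Ih
    · exact (h1.mul ((S.ge_D i g).mul (hinv' i hih))).mono (by push_cast; omega)
    · exact (h1.mul_right ((S.ge_D i g).mul_left (hinv i hih))).mono (by push_cast; omega)
  · refine ⟨w * (algebraMap D K g / algebraMap D K h), S.A.mul_mem hw ht, ?_⟩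
    have : e = algebraMap D K a * w + 1 := by rw [← hew]; ring
    rw [this]; ring

end Setup

end Pool.Agent.Q238.Chomp
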