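import Pool.Agent.Q238.Chomp.Approx

/-!
Ideals of the ring `R = D_P ∩ ⋂ V_j`: its maximal ideals, dimension, and Noetherianity.
-/

namespace Pool.Agent.Q238.Chomp

open Function

namespace Setup

variable {D K J : Type*} [CommRing D] [IsDomain D] [Field K] [Algebra D K]
  [IsFractionRing D K] (S : Setup D K J)

instance instPrime : S.P.IsPrime := S.hP

instance instLocA : IsLocalization.AtPrime S.A S.P := by
  unfold A
  exact Localization.subalgebra.isLocalization_ofField K S.P.primeCompl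
    S.P.primeCompl_le_nonZeroDivisors

instance instLocalRingA : IsLocalRing S.A := IsLocalization.AtPrime.isLocalRing S.A S.P

/-- The inclusion of `R` in `D_P`. -/
noncomputable def toA : S.R →+* S.A where
  toFun x := ⟨x.1, x.2.1⟩
  map_one' := rfl
  map_mul' _ _ := rfl
  map_zero' := rfl
  map_add' _ _ := rfl

/-- The ideal of `R` below the maximal ideal of `D_P`. -/
noncomputable def MR : Ideal S.R := (IsLocalRing.maximalIdeal S.A).comap S.toA

instance instMRPrime : S.MR.IsPrime := by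
  unfold MR
  infer_instance

/-- The ideal of `R` at the place `j`. -/
noncomputable def mR (j : J) : Ideal S.R where
  carrier := {x | (S.o j).ge 1 x.1}
  add_mem' := fun hx hy => hx.add hy
  zero_mem' := OrdFn.ge_zero _
  smul_mem' := fun c x hx => (c.2.2 j).mul_left hx

theorem mem_mR {j : J} {x : S.R} : x ∈ S.mR j ↔ (S.o j).ge 1 x.1 := Iff.rfl

theorem ord_of_not_mem {j : J} {x : S.R} (hx : x ∉ S.mR j) : x.1 ≠ 0 ∧ (S.o j).ord x.1 = 0 := by
  rw [mem_mR] at hx
  unfold OrdFn.ge at hx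
  push Not at hx
  refine ⟨hx.1, ?_⟩
  have := x.2.2 j
  rcases this with h | h
  · exact absurd h hx.1
  · omega

theorem not_mem_MR {x : S.R} (hx : x ∉ S.MR) : x.1 ≠ 0 ∧ x.1⁻¹ ∈ S.A := by
  have hu : IsUnit (S.toA x) := by
    by_contra h
    exact hx ((IsLocalRing.mem_maximalIdeal _).2 h)
  obtain ⟨y, hy⟩ := hu.exists_right_inv
  have hy' : x.1 * y.1 = 1 := congrArg Subtype.val hy
  have hx0 : x.1 ≠ 0 := by
    intro h; rw [h, zero_mul] at hy'; exact zero_ne_one hy'
  refine ⟨hx0, ?_⟩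
  rw [← eq_inv_of_mul_eq_one_right hy']
  exact y.2

theorem D_not_mem_MR {s : D} (hs : s ∉ S.P) :
    (⟨algebraMap D K s, S.D_mem_R s⟩ : S.R) ∉ S.MR := by
  intro h
  have h1 := (IsLocalRing.mem_maximalIdeal _).1 h
  apply h1
  have hs0 : algebraMap D K s ≠ 0 := ne0 (S.not_P_ne hs)
  refine IsUnit.of_mul_eq_one ⟨(algebraMap D K s)⁻¹, S.mem_A.2 ⟨1, s, hs, by simp⟩⟩ ?_
  apply Subtype.ext
  show algebraMap D K s * (algebraMap D K s)⁻¹ = 1
  exact mul_inv_cancel₀ hs0

/-- A multiple of `f` in `D_P`, of order at least that of `f` everywhere, is a multiple in `R`. -/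
theorem mem_mul {f x : K} (hf : f ≠ 0) (h1 : ∃ w ∈ S.A, x = f * w)
    (h2 : ∀ j, (S.o j).ge ((S.o j).ord f) x) : ∃ r ∈ S.R, x = f * r := by
  obtain ⟨w, hw, hx⟩ := h1
  refine ⟨w, ⟨hw, fun j => ?_⟩, hx⟩
  by_cases hw0 : w = 0
  · exact Or.inl hw0
  rcases h2 j with h | h
  · rw [hx] at h
    exact absurd h (mul_ne_zero hf hw0)
  · right
    rw [hx, (S.o j).ord_mul _ _ hf hw0] at h
    omega

/-- For `f ∈ R` nonzero: a nonzero `a ∈ D` which is a multiple of `f` in `D_P`. -/
theorem exists_a {f : K} (hf : f ≠ 0) (hfA : f ∈ S.A) :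
    ∃ a : D, a ≠ 0 ∧ ∃ w ∈ S.A, algebraMap D K a = f * w := by
  obtain ⟨g, h, hh, hfgh⟩ := S.mem_A.1 hfA
  have hh0 : algebraMap D K h ≠ 0 := ne0 (S.not_P_ne hh)
  refine ⟨g, ?_, algebraMap D K h, S.A.algebraMap_mem _, ?_⟩
  · rintro rfl
    apply hf
    rw [hfgh]; simp
  · rw [hfgh]; field_simp

/-- A finite set of places containing all those where `f` has nonzero order, and a bound. -/
theorem exists_bound {f : K} (hf : f ≠ 0) : ∃ (I : Finset J) (n : ℕ),
    (∀ i, i ∉ I → (S.o i).ord f = 0) ∧ ∀ i, (S.o i).ord f ≤ n := by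
  classical
  obtain ⟨I, hI⟩ := S.fin_neg f hf
  refine ⟨I, I.sup (fun i => ((S.o i).ord f).toNat), hI, fun i => ?_⟩
  by_cases hi : i ∈ I
  · have h1 : ((S.o i).ord f).toNat ≤ I.sup (fun i => ((S.o i).ord f).toNat) :=
      Finset.le_sup (f := fun i => ((S.o i).ord f).toNat) hi
    have h2 := Int.self_le_toNat ((S.o i).ord f)
    omega
  · rw [hI i hi]; positivity

/-- Every proper ideal of `R` is contained in `MR` or in some `mR j`. -/
theorem covering (I : Ideal S.R) (h0 : ¬ I ≤ S.MR) (h : ∀ j, ¬ I ≤ S.mR j) : I = ⊤ := by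
  classical
  have hne : I ≠ ⊥ := by
    rintro rfl; exact h0 bot_le
  obtain ⟨f, hfI, hf⟩ := Submodule.exists_mem_ne_zero_of_ne_bot hne
  have hf0 : f.1 ≠ 0 := fun h => hf (Subtype.ext h)
  obtain ⟨a, ha, wa, hwa, haf⟩ := S.exists_a hf0 f.2.1
  obtain ⟨If, n, hIf, hn⟩ := S.exists_bound hf0
  obtain ⟨gM, hgM, hgM'⟩ := SetLike.not_le_iff_exists.1 h0
  have hg : ∀ j, ∃ g ∈ I, g ∉ S.mR j := fun j => SetLike.not_le_iff_exists.1 (h j)
  choose g hgI hg' using hg
  obtain ⟨hM1, hM2⟩ := S.not_mem_MR hgM'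
  obtain ⟨sM, hsM, hsM1, wM, hwM, hsM2⟩ := S.approxA If n a ha _ hM2
  have happ : ∀ j, ∃ b ∈ S.R, (S.o j).ge n (b - (g j).1⁻¹) ∧
      (∀ i ∈ If, i ≠ j → (S.o i).ge n b) ∧ ∃ w ∈ S.A, b = algebraMap D K a * w := by
    intro j
    apply S.approx j If n a ha
    obtain ⟨h1, h2⟩ := S.ord_of_not_mem (hg' j)
    right
    rw [(S.o j).ord_inv h1, h2]
    simp
  choose s hsR hs1 hs2 w hw hsw using happ
  set x : K := 1 - sM * gM.1 - ∑ j ∈ If, s j * (g j).1 with hx
  obtain ⟨r, hr, hxr⟩ : ∃ r ∈ S.R, x = f.1 * r := by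
    apply S.mem_mul hf0
    · have e1 : 1 - sM * gM.1 = algebraMap D K a * (-(wM * gM.1)) := by
        have : sM = algebraMap D K a * wM + gM.1⁻¹ := by rw [← hsM2]; ring
        rw [this]; field_simp; ring
      have e2 : ∑ j ∈ If, s j * (g j).1 = algebraMap D K a * ∑ j ∈ If, w j * (g j).1 := by
        rw [Finset.mul_sum]
        refine Finset.sum_congr rfl (fun j _ => ?_)
        rw [hsw j]; ring
      refine ⟨wa * (-(wM * gM.1) - ∑ j ∈ If, w j * (g j).1), ?_, ?_⟩
      · refine S.A.mul_mem hwa (S.A.sub_mem (S.A.neg_mem (S.A.mul_mem hwM gM.2.1))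
          (S.A.sum_mem (fun j _ => S.A.mul_mem (hw j) (g j).2.1)))
      · rw [hx, e1, e2, haf]; ring
    · intro i
      by_cases hi : i ∈ If
      · refine OrdFn.ge.mono ?_ (hn i)
        rw [hx, ← Finset.add_sum_erase _ _ hi]
        have hgi := S.ord_of_not_mem (hg' i)
        have e1 : 1 - sM * gM.1 - (s i * (g i).1 + ∑ j ∈ If.erase i, s j * (g j).1) =
            -(s i - (g i).1⁻¹) * (g i).1 - sM * gM.1 - ∑ j ∈ If.erase i, s j * (g j).1 := by
          have := hgi.1
          field_simp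
          ring
        rw [e1]
        refine ((hs1 i).neg.mul_right ((g i).2.2 i)).sub
          ((hsM1 i hi).mul_right (gM.2.2 i)) |>.sub (OrdFn.ge.sum _ ?_)
        intro j hj
        exact (hs2 j i hi (Finset.ne_of_mem_erase hj).symm).mul_right ((g j).2.2 i)
      · rw [hIf i hi, hx]
        exact (OrdFn.ge_one.sub ((hsM.2 i).mul_left (gM.2.2 i))).sub
          (OrdFn.ge.sum _ (fun j _ => ((hsR j).2 i).mul_left ((g j).2.2 i)))
  rw [Ideal.eq_top_iff_one]
  have h1 : (1 : S.R) = f * ⟨r, hr⟩ + ⟨sM, hsM⟩ * gM + ∑ j ∈ If, (⟨s j, hsR j⟩ : S.R) * g j := by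
    apply Subtype.ext
    have : (1 : K) = f.1 * r + sM * gM.1 + ∑ j ∈ If, s j * (g j).1 := by
      rw [← hxr, hx]; ring
    simpa using this
  rw [h1]
  exact I.add_mem (I.add_mem (I.mul_mem_right _ hfI) (I.mul_mem_left _ hgM))
    (I.sum_mem (fun j _ => I.mul_mem_left _ (hgI j)))

/-- Denominators at `j`. -/
theorem exists_den (j : J) (x : K) (hx : (S.o j).ge 0 x) :
    ∃ b ∈ S.R, (S.o j).ge 1 (b - 1) ∧ b * x ∈ S.R := by
  classical
  by_cases hx0 : x = 0
  · exact ⟨1, S.R.one_mem, by simpa using OrdFn.ge_zero _, by simpa [hx0] using S.R.zero_mem⟩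
  obtain ⟨g, h, hh, hxgh⟩ := IsFractionRing.div_surjective (A := D) x
  have hh0 : h ≠ 0 := nonZeroDivisors.ne_zero hh
  have hhK := ne0 (K := K) hh0
  have hxi : x⁻¹ ≠ 0 := inv_ne_zero hx0
  obtain ⟨I, n, hI, hn⟩ := S.exists_bound hxi
  obtain ⟨e, heR, he1, he2, w, hw, hew⟩ := S.exists_e j I (n + 1) h hh0
  refine ⟨e, heR, he1.mono (by push_cast; omega), ?_, ?_⟩
  · have : e * x = algebraMap D K g * w := by
      rw [hew, ← hxgh]; field_simp
    rw [this]
    exact S.A.mul_mem (S.A.algebraMap_mem _) hw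
  · intro i
    by_cases hij : i = j
    · subst hij; exact (heR.2 i).mul_left hx
    · by_cases hi : i ∈ I
      · have h1 := he2 i hi hij
        have h2 : (S.o i).ge (-n) x := by
          right
          have := hn i
          rw [(S.o i).ord_inv hx0] at this
          omega
        exact (h1.mul h2).mono (by push_cast; omega)
      · have h2 : (S.o i).ge 0 x := by
          right
          have := hI i hi
          rw [(S.o i).ord_inv hx0] at this
          omega
        exact (heR.2 i).mul_left h2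

theorem not_mem_of_sub_one {j : J} {b : S.R} (h : (S.o j).ge 1 (b.1 - 1)) : b ∉ S.mR j := by
  intro hb
  rw [mem_mR] at hb
  have h1 := hb.sub h
  rw [sub_sub_cancel] at h1
  rcases h1 with h1 | h1
  · exact one_ne_zero h1
  · rw [(S.o j).ord_one] at h1; omega

theorem mR_ne_top (j : J) : S.mR j ≠ ⊤ := by
  rw [Ne, Ideal.eq_top_iff_one]
  apply S.not_mem_of_sub_one
  simpa using OrdFn.ge_zero _

theorem mR_maximal (j : J) : (S.mR j).IsMaximal := by
  rw [Ideal.isMaximal_iff]
  refine ⟨(Ideal.ne_top_iff_one _).1 (S.mR_ne_top j), ?_⟩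
  intro I x hle hx hxI
  obtain ⟨h1, h2⟩ := S.ord_of_not_mem hx
  obtain ⟨s, hs, hs1, -⟩ := S.approx j ∅ 1 1 one_ne_zero x.1⁻¹ (by
    right; rw [(S.o j).ord_inv h1, h2]; simp)
  have h3 : (1 : S.R) - ⟨s, hs⟩ * x ∈ S.mR j := by
    rw [mem_mR]
    have e : ((1 : S.R) - ⟨s, hs⟩ * x).1 = -(s - x.1⁻¹) * x.1 := by
      show (1 : K) - s * x.1 = _
      field_simp; ring
    rw [e]
    exact (hs1.neg.mul_right (x.2.2 j))
  have h4 := I.add_mem (hle h3) (I.mul_mem_left ⟨s, hs⟩ hxI)
  simpa using h4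

/-- A nonzero prime contained in `mR j` is `mR j`. -/
theorem prime_le_mR {j : J} {Q : Ideal S.R} (hQ : Q.IsPrime) (h0 : Q ≠ ⊥) (hle : Q ≤ S.mR j) :
    Q = S.mR j := by
  refine le_antisymm hle ?_
  intro r hr
  by_cases hr0 : r = 0
  · rw [hr0]; exact Q.zero_mem
  obtain ⟨q, hq, hq0⟩ := Submodule.exists_mem_ne_zero_of_ne_bot h0
  have hq0' : q.1 ≠ 0 := fun h => hq0 (Subtype.ext h)
  have hr0' : r.1 ≠ 0 := fun h => hr0 (Subtype.ext h)
  have hr1 : 1 ≤ (S.o j).ord r.1 := by
    rcases S.mem_mR.1 hr with h | h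
    · exact absurd h hr0'
    · exact h
  set α : ℕ := ((S.o j).ord q.1).toNat with hα
  have hq1 : (S.o j).ord q.1 = α := by
    rw [hα, Int.toNat_of_nonneg]
    rcases q.2.2 j with h | h
    · exact absurd h hq0'
    · exact h
  have hpow : ∀ m : ℕ, (S.o j).ord (r.1 ^ m) = m * (S.o j).ord r.1 := by
    intro m
    induction m with
    | zero => simp [(S.o j).ord_one]
    | succ m ih =>
      rw [pow_succ, (S.o j).ord_mul _ _ (pow_ne_zero _ hr0') hr0', ih]
      push_cast; ring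
  have hy : (S.o j).ge 0 (r.1 ^ α / q.1) := by
    right
    rw [(S.o j).ord_div (pow_ne_zero _ hr0') hq0', hpow, hq1]
    have : (α : ℤ) * 1 ≤ α * (S.o j).ord r.1 := by
      apply mul_le_mul_of_nonneg_left hr1; positivity
    omega
  obtain ⟨b, hb, hb1, hb2⟩ := S.exists_den j _ hy
  have hbn : (⟨b, hb⟩ : S.R) ∉ Q := fun h => S.not_mem_of_sub_one (b := ⟨b, hb⟩) hb1 (hle h)
  have hmem : (⟨b, hb⟩ : S.R) * r ^ α ∈ Q := by
    have : (⟨b, hb⟩ : S.R) * r ^ α = q * ⟨_, hb2⟩ := by
      apply Subtype.ext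
      show b * r.1 ^ α = q.1 * (b * (r.1 ^ α / q.1))
      field_simp
    rw [this]
    exact Q.mul_mem_right _ hq
  rcases hQ.mem_or_mem hmem with h | h
  · exact absurd h hbn
  · exact hQ.mem_of_pow_mem _ h

/-- `mR j` is generated by any nonzero `a ∈ mR j` and one further element of order one. -/
theorem mR_two_gen (j : J) (a : S.R) (ha : a ∈ S.mR j) (ha0 : a ≠ 0) :
    ∃ b : S.R, (S.o j).ord b.1 = 1 ∧ b.1 ≠ 0 ∧
      Ideal.span {a} ⊔ Ideal.span {b} = S.mR j := by
  classical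
  have ha0' : a.1 ≠ 0 := fun h => ha0 (Subtype.ext h)
  obtain ⟨c, hc, wc, hwc, hca⟩ := S.exists_a ha0' a.2.1
  obtain ⟨I, n, hI, hn⟩ := S.exists_bound ha0'
  obtain ⟨ϖ, hϖ0, hϖ⟩ := S.unif j
  have haj : 1 ≤ (S.o j).ord a.1 := by
    rcases S.mem_mR.1 ha with h | h
    · exact absurd h ha0'
    · exact h
  have hjI : j ∈ I := by
    by_contra h
    rw [hI j h] at haj; omega
  obtain ⟨s1, hs1, hs1a, hs1b, w1, hw1, hs1w⟩ := S.approx j I 2 c hc ϖ (Or.inr (by omega))
  obtain ⟨e, he, hea, heb, w2, hw2, hew⟩ := S.exists_e j I 2 c hc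
  have hb : s1 + 1 - e ∈ S.R := S.R.sub_mem (S.R.add_mem hs1 S.R.one_mem) he
  set b : S.R := ⟨s1 + 1 - e, hb⟩ with hbdef
  have hb1 : b.1 ≠ 0 ∧ (S.o j).ord b.1 = 1 := by
    have := OrdFn.ord_eq_of_sub (o := S.o j) (x := b.1) (y := ϖ) hϖ0 (by
      rw [hϖ]
      have e1 : b.1 - ϖ = (s1 - ϖ) - (e - 1) := by rw [hbdef]; ring
      rw [e1]
      exact hs1a.sub hea)
    rw [hϖ] at this
    exact this
  have hbi : ∀ i ∈ I, i ≠ j → (S.o i).ge 1 (b.1 - 1) := by
    intro i hi hij
    have e1 : b.1 - 1 = s1 - e := by rw [hbdef]; ring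
    rw [e1]
    exact ((hs1b i hi hij).sub (heb i hi hij)).mono (by norm_num)
  have hbA : ∃ w ∈ S.A, b.1 - 1 = algebraMap D K c * w := by
    refine ⟨w1 - w2, S.A.sub_mem hw1 hw2, ?_⟩
    rw [hbdef, mul_sub, ← hs1w, ← hew]; ring
  have hbi' : ∀ i ∈ I, i ≠ j → (S.o i).ord b.1 = 0 := by
    intro i hi hij
    have := OrdFn.ord_eq_of_sub (o := S.o i) (x := b.1) (y := 1) one_ne_zero (by
      rw [(S.o i).ord_one]; exact hbi i hi hij)
    rw [this.2, (S.o i).ord_one]
  refine ⟨b, hb1.2, hb1.1, le_antisymm ?_ ?_⟩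
  · rw [sup_le_iff, Ideal.span_singleton_le_iff_mem, Ideal.span_singleton_le_iff_mem]
    exact ⟨ha, Or.inr (by rw [hb1.2])⟩
  · intro r hr
    -- approximate `r / b`
    have happ : ∀ i, i ∈ I → ∃ s ∈ S.R, (S.o i).ge n (s - r.1 / b.1) ∧
        (∀ i' ∈ I, i' ≠ i → (S.o i').ge n s) ∧ ∃ w ∈ S.A, s = algebraMap D K c * w := by
      intro i hi
      apply S.approx i I n c hc
      by_cases hr0 : r.1 = 0
      · left; rw [hr0, zero_div]
      right
      rw [(S.o i).ord_div hr0 hb1.1]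
      by_cases hij : i = j
      · subst hij
        rw [hb1.2]
        rcases S.mem_mR.1 hr with h | h
        · exact absurd h hr0
        · omega
      · rw [hbi' i hi hij]
        rcases r.2.2 i with h | h
        · exact absurd h hr0
        · omega
    choose! s hsR hs1 hs2 hs3 using happ
    obtain ⟨sA, hsA, hsA1, wA, hwA, hsA2⟩ := S.approxA I n c hc r.1 r.2.1
    set σ : K := sA + ∑ i ∈ I, s i with hσ
    have hσR : σ ∈ S.R := S.R.add_mem hsA (S.R.sum_mem (fun i hi => hsR i hi))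
    obtain ⟨y, hy, hyeq⟩ : ∃ y ∈ S.R, r.1 - σ * b.1 = a.1 * y := by
      apply S.mem_mul ha0'
      · have h1 : ∃ w ∈ S.A, ∑ i ∈ I, s i = algebraMap D K c * w := by
          choose! w hw hsw using hs3
          refine ⟨∑ i ∈ I, w i, S.A.sum_mem (fun i hi => hw i hi), ?_⟩
          rw [Finset.mul_sum]
          exact Finset.sum_congr rfl (fun i hi => hsw i hi)
        obtain ⟨w3, hw3, hw3e⟩ := h1
        obtain ⟨wb, hwb, hwbe⟩ := hbA
        refine ⟨wc * (-(r.1 * wb) - (wA + w3) * b.1), S.A.mul_mem hwc (S.A.sub_mem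
          (S.A.neg_mem (S.A.mul_mem r.2.1 hwb)) (S.A.mul_mem (S.A.add_mem hwA hw3) b.2.1)), ?_⟩
        have hsA3 : sA = algebraMap D K c * wA + r.1 := by rw [← hsA2]; ring
        have hb3 : b.1 = algebraMap D K c * wb + 1 := by rw [← hwbe]; ring
        rw [hσ, hw3e, hsA3]
        have : r.1 - (algebraMap D K c * wA + r.1 + algebraMap D K c * w3) * b.1 =
            r.1 * (1 - b.1) - algebraMap D K c * (wA + w3) * b.1 := by ring
        rw [this]
        have h5 : 1 - b.1 = -(algebraMap D K c * wb) := by rw [hb3]; ring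
        rw [h5, hca]; ring
      · intro i
        by_cases hi : i ∈ I
        · refine OrdFn.ge.mono ?_ (hn i)
          rw [hσ, ← Finset.add_sum_erase _ _ hi]
          have e1 : r.1 - (sA + (s i + ∑ i' ∈ I.erase i, s i')) * b.1 =
              -(s i - r.1 / b.1) * b.1 - sA * b.1 - (∑ i' ∈ I.erase i, s i') * b.1 := by
            have := hb1.1
            field_simp
            ring
          rw [e1]
          refine (((hs1 i hi).neg.mul_right (b.2.2 i)).sub
            ((hsA1 i hi).mul_right (b.2.2 i))).sub ?_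
          refine OrdFn.ge.mul_right (OrdFn.ge.sum _ ?_) (b.2.2 i)
          intro i' hi'
          exact hs2 i' (Finset.mem_of_mem_erase hi') i hi (Finset.ne_of_mem_erase hi').symm
        · rw [hI i hi]
          exact (r.2.2 i).sub ((hσR.2 i).mul_left (b.2.2 i))
    have hfin : r = a * ⟨y, hy⟩ + ⟨σ, hσR⟩ * b := by
      apply Subtype.ext
      show r.1 = a.1 * y + σ * b.1
      rw [← hyeq]; ring
    rw [hfin]
    refine Ideal.add_mem _ ?_ ?_
    · exact Ideal.mem_sup_left (Ideal.mul_mem_right _ _ (Ideal.mem_span_singleton_self a))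
    · exact Ideal.mem_sup_right (Ideal.mul_mem_left _ _ (Ideal.mem_span_singleton_self b))

/-- `B`'s answer. -/
theorem answer (a : S.R) (ha0 : a ≠ 0) (hau : ¬ IsUnit a) :
    ∃ b : S.R, b ∉ Ideal.span {a} ∧ (Ideal.span {a} ⊔ Ideal.span {b}).IsMaximal := by
  have ha0' : a.1 ≠ 0 := fun h => ha0 (Subtype.ext h)
  rcases S.big a.1 ha0' with ⟨u, hu⟩ | ⟨j, hj | hj⟩
  · exfalso
    apply hau
    refine IsUnit.of_mul_eq_one ⟨algebraMap D K (↑(u⁻¹) : D), S.D_mem_R _⟩ ?_
    apply Subtype.ext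
    show a.1 * algebraMap D K (↑(u⁻¹) : D) = 1
    rw [hu, ← map_mul, Units.mul_inv, map_one]
  · have haj : a ∈ S.mR j := Or.inr (by omega)
    obtain ⟨b, hb1, hb0, hab⟩ := S.mR_two_gen j a haj ha0
    refine ⟨b, ?_, ?_⟩
    · intro h
      rw [Ideal.mem_span_singleton'] at h
      obtain ⟨c, hc⟩ := h
      have hc' : c.1 * a.1 = b.1 := congrArg Subtype.val hc
      have hc0 : c.1 ≠ 0 := by
        intro h; rw [h, zero_mul] at hc'; exact hb0 hc'.symm
      have := (S.o j).ord_mul _ _ hc0 ha0'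
      rw [hc', hb1] at this
      rcases c.2.2 j with h | h
      · exact hc0 h
      · omega
    · rw [hab]; exact S.mR_maximal j
  · exfalso
    rcases a.2.2 j with h | h
    · exact ha0' h
    · omega

/-- The algebra structure of `D_P` over `R`. -/
noncomputable instance instAlg : Algebra S.R S.A := S.toA.toAlgebra

theorem algebraMap_eq : algebraMap S.R S.A = S.toA := rfl

instance instLocMR : IsLocalization.AtPrime S.A S.MR := by
  constructor
  refine ⟨?_, ?_, ?_⟩
  · rintro ⟨y, hy⟩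
    by_contra h
    exact hy ((IsLocalRing.mem_maximalIdeal _).2 h)
  · intro z
    obtain ⟨g, s, hs, hz⟩ := S.mem_A.1 z.2
    refine ⟨⟨⟨algebraMap D K g, S.D_mem_R g⟩,
      ⟨⟨algebraMap D K s, S.D_mem_R s⟩, S.D_not_mem_MR hs⟩⟩, ?_⟩
    apply Subtype.ext
    show z.1 * algebraMap D K s = algebraMap D K g
    have hs0 : algebraMap D K s ≠ 0 := ne0 (S.not_P_ne hs)
    rw [hz]; field_simp
  · intro x y h
    refine ⟨1, ?_⟩
    have : x.1 = y.1 := congrArg (fun z : S.A => (z : K)) h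
    have : x = y := Subtype.ext this
    rw [this]

theorem height_MR : (S.MR.height : WithBot ℕ∞) = S.P.height := by
  rw [← IsLocalization.AtPrime.ringKrullDim_eq_height S.MR S.A,
    ← IsLocalization.AtPrime.ringKrullDim_eq_height S.P S.A]

theorem height_mR (j : J) : (S.mR j).height ≤ (1 : ℕ) := by
  have := (S.mR_maximal j).isPrime
  rw [Ideal.height_le_iff]
  intro q hq hlt
  have : q = ⊥ := by
    by_contra h
    exact hlt.ne (S.prime_le_mR hq h hlt.le)
  rw [this, Ideal.height_bot]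
  exact one_pos

theorem krullDim (n : ℕ) (hn : 1 ≤ n) (hP : S.P.height = n) : ringKrullDim S.R = n := by
  have hM : (S.MR.height : WithBot ℕ∞) = (n : ℕ∞) := by rw [S.height_MR, hP]
  apply le_antisymm
  · rw [ringKrullDim_le_iff_isMaximal_height_le]
    intro m hm
    by_cases h0 : m ≤ S.MR
    · have : m = S.MR := hm.eq_of_le S.instMRPrime.ne_top h0
      rw [this, hM]
      rfl
    · obtain ⟨j, hj⟩ : ∃ j, m ≤ S.mR j := by
        by_contra hcon
        push Not at hcon
        exact hm.ne_top (S.covering m h0 hcon)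
      have : m = S.mR j := hm.eq_of_le (S.mR_ne_top j) hj
      rw [this]
      have h1 := S.height_mR j
      have h2 : (S.mR j).height ≤ (n : ℕ∞) := h1.trans (by exact_mod_cast hn)
      exact_mod_cast h2
  · calc (n : WithBot ℕ∞) = (S.MR.height : WithBot ℕ∞) := by rw [hM]; rfl
      _ ≤ ringKrullDim S.R := Ideal.height_le_ringKrullDim_of_ne_top S.instMRPrime.ne_top

theorem noetherian [IsNoetherianRing D] : IsNoetherianRing S.R := by
  classical
  have hNA : IsNoetherianRing S.A := IsLocalization.isNoetherianRing S.P.primeCompl S.A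
    inferInstance
  apply IsNoetherianRing.of_prime_ne_bot
  intro Q hQ hQ0
  obtain ⟨f, hfQ, hf⟩ := Submodule.exists_mem_ne_zero_of_ne_bot hQ0
  have hf0 : f.1 ≠ 0 := fun h => hf (Subtype.ext h)
  by_cases hex : ∃ j, Q ≤ S.mR j
  · obtain ⟨j, hj⟩ := hex
    have hQj := S.prime_le_mR hQ hQ0 hj
    obtain ⟨b, -, -, hab⟩ := S.mR_two_gen j f (hj hfQ) hf
    rw [hQj, ← hab]
    exact Submodule.FG.sup ⟨{f}, by simp⟩ ⟨{b}, by simp⟩
  · push Not at hex
    obtain ⟨If, n, hIf, hn⟩ := S.exists_bound hf0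
    have hq : ∀ j, ∃ q ∈ Q, q ∉ S.mR j := fun j => SetLike.not_le_iff_exists.1 (hex j)
    choose q hqQ hq' using hq
    obtain ⟨T, hT, hTspan⟩ : ∃ T : Finset S.R, (T : Set S.R) ⊆ Q ∧
        Q.map (algebraMap S.R S.A) = (Ideal.span (T : Set S.R)).map (algebraMap S.R S.A) := by
      have hfg : (Ideal.span ((algebraMap S.R S.A) '' (Q : Set S.R))).FG :=
        (isNoetherianRing_iff_ideal_fg S.A).1 hNA _
      obtain ⟨T', hT', hspan⟩ := Submodule.fg_span_iff_fg_span_finset_subset _ |>.1 hfg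
      obtain ⟨T, hT, hTeq⟩ := (Finset.subset_set_image_iff).1 hT'
      refine ⟨T, hT, ?_⟩
      rw [Ideal.map_span]
      rw [← hTeq] at hspan
      rw [Finset.coe_image] at hspan
      exact hspan
    set I' : Ideal S.R := Ideal.span (T : Set S.R) ⊔ Ideal.span {f} ⊔
      Ideal.span ((If.image q : Finset S.R) : Set S.R) with hI'
    have hfg : I'.FG := (Submodule.FG.sup (Submodule.FG.sup ⟨T, rfl⟩ ⟨{f}, by simp⟩)
      ⟨If.image q, rfl⟩)
    have hle : I' ≤ Q := by
      rw [hI', sup_le_iff, sup_le_iff]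
      refine ⟨⟨Ideal.span_le.2 hT, (Ideal.span_singleton_le_iff_mem _).2 hfQ⟩, ?_⟩
      rw [Ideal.span_le]
      intro x hx
      rw [Finset.coe_image] at hx
      obtain ⟨j, -, rfl⟩ := hx
      exact hqQ j
    suffices h : Q ≤ I' by rw [le_antisymm h hle]; exact hfg
    intro r hr
    -- the ideal of all `s` with `s * r ∈ I'`
    set C : Ideal S.R := Submodule.comap (LinearMap.mulRight S.R r) I' with hC
    have hmemC : ∀ s : S.R, s ∈ C ↔ s * r ∈ I' := fun s => by
      rw [hC, Submodule.mem_comap]; rfl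
    have htop : C = ⊤ := by
      apply S.covering
      · intro hCM
        have hrA : algebraMap S.R S.A r ∈ (Ideal.span (T : Set S.R)).map (algebraMap S.R S.A) := by
          rw [← hTspan]; exact Ideal.mem_map_of_mem _ hr
        rw [IsLocalization.mem_map_algebraMap_iff S.MR.primeCompl] at hrA
        obtain ⟨⟨x, y⟩, hxy⟩ := hrA
        have hxy' : r * (y : S.R) = (x : S.R) := by
          apply Subtype.ext
          exact congrArg (fun z : S.A => (z : K)) hxy
        apply y.2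
        apply hCM
        rw [hmemC, mul_comm, hxy', hI']
        exact Ideal.mem_sup_left (Ideal.mem_sup_left x.2)
      · intro j hCj
        by_cases hj : j ∈ If
        · apply hq' j
          apply hCj
          rw [hmemC, hI']
          apply Ideal.mul_mem_right
          apply Ideal.mem_sup_right
          apply Ideal.subset_span
          rw [Finset.coe_image]
          exact ⟨j, hj, rfl⟩
        · have hfC : f ∈ C := by
            rw [hmemC, hI']
            apply Ideal.mul_mem_right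
            exact Ideal.mem_sup_left (Ideal.mem_sup_right (Ideal.mem_span_singleton_self f))
          rcases S.mem_mR.1 (hCj hfC) with h | h
          · exact hf0 h
          · rw [hIf j hj] at h; omega
    have h1 : (1 : S.R) ∈ C := by rw [htop]; trivial
    rw [hmemC, one_mul] at h1
    exact h1

end Setup

end Pool.Agent.Q238.Chomp
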