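import Pool.Agent.Q238.Chomp.Approx

/-!
Weighted orders of vanishing at a point of affine space.
-/

namespace Pool.Agent.Q238.Chomp

open Function MvPolynomial

variable {k : Type} [Field k] {m : ℕ}

/-- The polynomial ring. -/
abbrev DD (k : Type) [Field k] (m : ℕ) := MvPolynomial (Fin (m + 2)) k

/-- Its fraction field. -/
abbrev KK (k : Type) [Field k] (m : ℕ) := FractionRing (DD k m)

/-- The weights: `2, 3, 3, …`. -/
def wt (i : Fin (m + 2)) : ℕ := if i = 0 then 2 else 3

theorem two_le_wt (i : Fin (m + 2)) : 2 ≤ wt i := by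
  unfold wt; split_ifs <;> omega

/-- The inclusion of the constants in `K`. -/
noncomputable def cst (k : Type) [Field k] (m : ℕ) : k →+* KK k m :=
  (algebraMap (DD k m) (KK k m)).comp C

/-- The substitution `x_i ↦ a_i + x_i t^{w_i}`. -/
noncomputable def psi (a : Fin (m + 2) → k) : DD k m →+* Polynomial (KK k m) :=
  eval₂Hom (Polynomial.C.comp (cst k m)) (fun i => Polynomial.C (cst k m (a i)) +
    Polynomial.C (algebraMap (DD k m) (KK k m) (X i)) * Polynomial.X ^ (wt i))

theorem psi_C (a : Fin (m + 2) → k) (c : k) : psi a (C c) = Polynomial.C (cst k m c) := by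
  simp [psi]

theorem psi_X (a : Fin (m + 2) → k) (i : Fin (m + 2)) :
    psi a (X i) = Polynomial.C (cst k m (a i)) +
    Polynomial.C (algebraMap (DD k m) (KK k m) (X i)) * Polynomial.X ^ (wt i) := by
  simp [psi]

/-- The translation by `a`. -/
noncomputable def tr (a : Fin (m + 2) → k) : DD k m →+* DD k m :=
  eval₂Hom C (fun i => C (a i) + X i)

theorem tr_tr (a : Fin (m + 2) → k) (f : DD k m) : tr (fun i => -a i) (tr a f) = f := by
  have : (tr (fun i => -a i)).comp (tr a) = RingHom.id (DD k m) := by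
    apply MvPolynomial.ringHom_ext
    · intro r; simp [tr]
    · intro i; simp [tr]
  exact congrArg (fun g : DD k m →+* DD k m => g f) this

theorem eval_one_psi (a : Fin (m + 2) → k) (f : DD k m) :
    Polynomial.eval 1 (psi a f) = algebraMap (DD k m) (KK k m) (tr a f) := by
  have : (Polynomial.evalRingHom (1 : KK k m)).comp (psi a) =
      (algebraMap (DD k m) (KK k m)).comp (tr a) := by
    apply MvPolynomial.ringHom_ext
    · intro r; simp [psi_C, tr, cst]
    · intro i; simp [psi_X, tr, cst]
  exact congrArg (fun g : DD k m →+* KK k m => g f) this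

theorem psi_injective (a : Fin (m + 2) → k) : Injective (psi a) := by
  rw [injective_iff_map_eq_zero]
  intro f hf
  have h1 := eval_one_psi a f
  rw [hf, Polynomial.eval_zero] at h1
  have h2 : tr a f = 0 := by
    apply IsFractionRing.injective (DD k m) (KK k m)
    rw [← h1, map_zero]
  have h3 := tr_tr a f
  rw [h2, map_zero] at h3
  exact h3.symm

theorem coeff_zero_psi (a : Fin (m + 2) → k) (f : DD k m) :
    (psi a f).coeff 0 = cst k m (eval a f) := by
  have : (Polynomial.constantCoeff).comp (psi a) = (cst k m).comp (eval a) := by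
    apply MvPolynomial.ringHom_ext
    · intro r; simp [psi_C]
    · intro i
      have := two_le_wt i
      simp [psi_X]
      omega
  have := congrArg (fun g : DD k m →+* KK k m => g f) this
  simpa using this

theorem coeff_one_psi (a : Fin (m + 2) → k) (f : DD k m) : (psi a f).coeff 1 = 0 := by
  induction f using MvPolynomial.induction_on with
  | C c => rw [psi_C, Polynomial.coeff_C]; simp
  | add p q hp hq => rw [map_add, Polynomial.coeff_add, hp, hq, add_zero]
  | mul_X p i hp =>
    rw [map_mul, psi_X, mul_add, Polynomial.coeff_add, Polynomial.coeff_mul_C, hp, zero_mul,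
      zero_add, ← mul_assoc, Polynomial.coeff_mul_X_pow']
    have := two_le_wt i
    rw [if_neg (by omega)]

/-- The map to Laurent series. -/
noncomputable def Phi (a : Fin (m + 2) → k) : DD k m →+* HahnSeries ℤ (KK k m) :=
  (HahnSeries.ofPowerSeries ℤ (KK k m)).comp ((Polynomial.coeToPowerSeries.ringHom).comp (psi a))

theorem Phi_apply (a : Fin (m + 2) → k) (f : DD k m) :
    Phi a f = HahnSeries.ofPowerSeries ℤ (KK k m) ((psi a f : Polynomial (KK k m)) :
      PowerSeries (KK k m)) := rfl

theorem Phi_injective (a : Fin (m + 2) → k) : Injective (Phi a) := by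
  intro f g h
  apply psi_injective a
  rw [Phi_apply, Phi_apply] at h
  exact Polynomial.coe_injective _ (HahnSeries.ofPowerSeries_injective h)

theorem Phi_coeff (a : Fin (m + 2) → k) (f : DD k m) (n : ℕ) :
    (Phi a f).coeff (n : ℤ) = (psi a f).coeff n := by
  rw [Phi_apply, HahnSeries.ofPowerSeries_apply_coeff, Polynomial.coeff_coe]

/-- The extension to the fraction field. -/
noncomputable def Psi (a : Fin (m + 2) → k) : KK k m →+* HahnSeries ℤ (KK k m) :=
  IsFractionRing.lift (Phi_injective a)

theorem Psi_algebraMap (a : Fin (m + 2) → k) (f : DD k m) :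
    Psi a (algebraMap (DD k m) (KK k m) f) = Phi a f :=
  IsFractionRing.lift_algebraMap _ _

theorem Psi_ne_zero (a : Fin (m + 2) → k) {x : KK k m} (hx : x ≠ 0) : Psi a x ≠ 0 := by
  rw [Ne, map_eq_zero]; exact hx

/-- The order function at `a`. -/
noncomputable def ordAt (a : Fin (m + 2) → k) : OrdFn (KK k m) where
  ord x := (Psi a x).order
  ord_mul x y hx hy := by
    rw [map_mul, HahnSeries.order_mul (Psi_ne_zero a hx) (Psi_ne_zero a hy)]
  ord_add x y hx hy hxy := by
    rw [map_add]
    apply HahnSeries.min_order_le_order_add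
    rw [← map_add]
    exact Psi_ne_zero a hxy

theorem ordAt_D (a : Fin (m + 2) → k) (f : DD k m) :
    (ordAt a).ord (algebraMap (DD k m) (KK k m) f) = (Phi a f).order := by
  show (Psi a _).order = _
  rw [Psi_algebraMap]

theorem Phi_ne_zero (a : Fin (m + 2) → k) {f : DD k m} (hf : f ≠ 0) : Phi a f ≠ 0 := by
  rw [Ne, map_eq_zero_iff _ (Phi_injective a)]; exact hf

theorem ordAt_nonneg (a : Fin (m + 2) → k) (f : DD k m) (hf : f ≠ 0) :
    0 ≤ (ordAt a).ord (algebraMap (DD k m) (KK k m) f) := by
  rw [ordAt_D]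
  by_contra hlt
  push Not at hlt
  have hne := HahnSeries.coeff_order_eq_zero.not.2 (Phi_ne_zero a hf)
  apply hne
  rw [Phi_apply]
  rw [HahnSeries.ofPowerSeries_apply]
  apply HahnSeries.embDomain_of_notMem_range
  rintro ⟨n, hn⟩
  have hn' : (n : ℤ) = (Phi a f).order := hn
  omega

theorem ordAt_zero_iff (a : Fin (m + 2) → k) (f : DD k m) (hf : f ≠ 0) :
    (ordAt a).ord (algebraMap (DD k m) (KK k m) f) = 0 ↔ eval a f ≠ 0 := by
  have hinj : Injective (cst k m) := (cst k m).injective
  constructor
  · intro h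
    rw [ordAt_D] at h
    have hne := HahnSeries.coeff_order_eq_zero.not.2 (Phi_ne_zero a hf)
    rw [h] at hne
    have : (Phi a f).coeff ((0 : ℕ) : ℤ) ≠ 0 := by simpa using hne
    rw [Phi_coeff, coeff_zero_psi] at this
    intro h0
    rw [h0, map_zero] at this
    exact this rfl
  · intro h
    have h1 : (Phi a f).coeff ((0 : ℕ) : ℤ) ≠ 0 := by
      rw [Phi_coeff, coeff_zero_psi]
      intro h0
      exact h ((map_eq_zero_iff _ hinj).1 h0)
    have h2 := HahnSeries.order_le_of_coeff_ne_zero h1
    rw [← ordAt_D] at h2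
    have h3 := ordAt_nonneg a f hf
    simp at h2
    omega

theorem ordAt_two_le (a : Fin (m + 2) → k) (f : DD k m) (hf : f ≠ 0) (h : eval a f = 0) :
    2 ≤ (ordAt a).ord (algebraMap (DD k m) (KK k m) f) := by
  have h0 := ordAt_nonneg a f hf
  have h1 : (ordAt a).ord (algebraMap (DD k m) (KK k m) f) ≠ 0 := by
    rw [Ne, ordAt_zero_iff a f hf]; simpa using h
  have h2 : (ordAt a).ord (algebraMap (DD k m) (KK k m) f) ≠ 1 := by
    intro h2
    rw [ordAt_D] at h2
    have hne := HahnSeries.coeff_order_eq_zero.not.2 (Phi_ne_zero a hf)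
    rw [h2] at hne
    have : (Phi a f).coeff ((1 : ℕ) : ℤ) ≠ 0 := by simpa using hne
    rw [Phi_coeff, coeff_one_psi] at this
    exact this rfl
  omega

theorem ordAt_coord (a : Fin (m + 2) → k) (i : Fin (m + 2)) :
    (ordAt a).ord (algebraMap (DD k m) (KK k m) (X i - C (a i))) = wt i ∧
      algebraMap (DD k m) (KK k m) (X i - C (a i)) ≠ 0 := by
  have hX : algebraMap (DD k m) (KK k m) (X i) ≠ 0 := by
    rw [Ne, map_eq_zero_iff _ (IsFractionRing.injective (DD k m) (KK k m))]
    exact X_ne_zero i
  have e : psi a (X i - C (a i)) =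
      Polynomial.C (algebraMap (DD k m) (KK k m) (X i)) * Polynomial.X ^ (wt i) := by
    rw [map_sub, psi_X, psi_C]; ring
  have e2 : Phi a (X i - C (a i)) =
      HahnSeries.single (wt i : ℤ) (algebraMap (DD k m) (KK k m) (X i)) := by
    rw [Phi_apply, e, Polynomial.coe_mul, Polynomial.coe_C, Polynomial.coe_pow, Polynomial.coe_X,
      map_mul, HahnSeries.ofPowerSeries_C, HahnSeries.ofPowerSeries_X_pow, HahnSeries.C_apply,
      HahnSeries.single_mul_single]
    simp
  have e3 : Phi a (X i - C (a i)) ≠ 0 := by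
    rw [e2]; exact HahnSeries.single_ne_zero hX
  constructor
  · rw [ordAt_D, e2, HahnSeries.order_single hX]
  · intro h
    apply e3
    rw [← Psi_algebraMap, h, map_zero]

theorem ordAt_unif (a : Fin (m + 2) → k) : ∃ x : KK k m, x ≠ 0 ∧ (ordAt a).ord x = 1 := by
  obtain ⟨h0, h0'⟩ := ordAt_coord a 0
  obtain ⟨h1, h1'⟩ := ordAt_coord a 1
  refine ⟨_, div_ne_zero h1' h0', ?_⟩
  rw [(ordAt a).ord_div h1' h0', h0, h1]
  have : (1 : Fin (m + 2)) ≠ 0 := by simp
  simp [wt, this]

end Pool.Agent.Q238.Chomp
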