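import Pool.Agent.Q238.Chomp.Ideals
import Pool.Agent.Q238.Chomp.Orders

/-!
The points and the prime used in the construction; existence of the rings.
-/

namespace Pool.Agent.Q238.Chomp

open MvPolynomial

/-- Irreducible polynomials up to units. -/
def JJ (k : Type) [Field k] (m : ℕ) := {q : Associates (DD k m) // Irreducible q}

section

variable {k : Type} [Field k] {m : ℕ}

/-- A representative. -/
noncomputable def rep (q : JJ k m) : DD k m := Quotient.out q.1

theorem mk_rep (q : JJ k m) : Associates.mk (rep q) = q.1 := Quotient.out_eq q.1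

theorem rep_irreducible (q : JJ k m) : Irreducible (rep q) := by
  rw [← Associates.irreducible_mk, mk_rep]; exact q.2

theorem eq_of_rep_dvd {q q' : JJ k m} (h : rep q ∣ rep q') : q = q' := by
  have h1 : Associated (rep q) (rep q') := (rep_irreducible q).associated_of_dvd
    (rep_irreducible q') h
  apply Subtype.ext
  rw [← mk_rep q, ← mk_rep q']
  exact Associates.mk_eq_mk_iff_associated.2 h1

/-- The class of an irreducible polynomial. -/
noncomputable def cls (p : DD k m) (hp : Irreducible p) : JJ k m :=
  ⟨Associates.mk p, Associates.irreducible_mk.2 hp⟩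

theorem rep_cls (p : DD k m) (hp : Irreducible p) : Associated (rep (cls p hp)) p := by
  rw [← Associates.mk_eq_mk_iff_associated, mk_rep]; rfl

theorem eval_eq_zero_of_dvd {a : Fin (m + 2) → k} {p q : DD k m} (h : p ∣ q) (hp : eval a p = 0) :
    eval a q = 0 := by
  obtain ⟨c, rfl⟩ := h
  rw [map_mul, hp, zero_mul]

/-- A zero of a polynomial is a zero of one of its irreducible factors. -/
theorem exists_factor (a : Fin (m + 2) → k) (h : DD k m) : h ≠ 0 → eval a h = 0 →
    ∃ q : JJ k m, rep q ∣ h ∧ eval a (rep q) = 0 := by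
  induction h using WfDvdMonoid.induction_on_irreducible with
  | zero => intro h0; exact absurd rfl h0
  | unit u hu =>
    intro _ h0
    have := hu.map (eval a)
    rw [h0] at this
    exact absurd this not_isUnit_zero
  | mul b i hb hi ih =>
    intro _ h0
    rw [map_mul, mul_eq_zero] at h0
    rcases h0 with h0 | h0
    · refine ⟨cls i hi, (rep_cls i hi).dvd.trans (dvd_mul_right _ _), ?_⟩
      exact eval_eq_zero_of_dvd (rep_cls i hi).symm.dvd h0
    · obtain ⟨q, hq1, hq2⟩ := ih hb h0
      exact ⟨q, hq1.trans (dvd_mul_left _ _), hq2⟩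

end

section

variable (k : Type) [Field k] [IsAlgClosed k] [Countable k] (m : ℕ)

theorem countable_DD : Countable (DD k m) := by
  rw [← Cardinal.mk_le_aleph0_iff]
  refine le_trans (MvPolynomial.cardinalMk_le_max_lift) ?_
  have h1 : Cardinal.mk k ≤ Cardinal.aleph0 := Cardinal.mk_le_aleph0_iff.2 inferInstance
  simp [h1]

theorem countable_JJ : Countable (JJ k m) := by
  have := countable_DD k m
  have : Countable (Associates (DD k m)) := by
    unfold Associates
    infer_instance
  unfold JJ
  infer_instance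

theorem exists_code : ∃ c : JJ k m → ℕ, Function.Injective c := by
  have := countable_JJ k m
  exact exists_injective_nat (JJ k m)

/-- An enumeration of the irreducible polynomials. -/
noncomputable def code : JJ k m → ℕ := (exists_code k m).choose

theorem code_inj : Function.Injective (code k m) := (exists_code k m).choose_spec

variable {k m}

theorem exists_point (q : JJ k m) : ∃ a : Fin (m + 2) → k, eval a (rep q) = 0 ∧
    ∀ q' : JJ k m, code k m q' < code k m q → eval a (rep q') ≠ 0 := by
  classical
  have hfin : {q' : JJ k m | code k m q' < code k m q}.Finite :=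
    (Set.finite_Iio (code k m q)).preimage (code_inj k m).injOn
  by_contra hcon
  push Not at hcon
  set PP : DD k m := ∏ q' ∈ hfin.toFinset, rep q' with hPP
  have hmem : PP ∈ vanishingIdeal k (zeroLocus k (Ideal.span {rep q})) := by
    rw [mem_vanishingIdeal_iff]
    intro a ha
    rw [mem_zeroLocus_iff] at ha
    have h1 := ha (rep q) (Ideal.mem_span_singleton_self _)
    rw [aeval_eq_eval] at h1
    obtain ⟨q', hq', h2⟩ := hcon a h1
    rw [aeval_eq_eval]
    refine eval_eq_zero_of_dvd ?_ h2
    exact Finset.dvd_prod_of_mem _ (by simpa using hq')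
  rw [vanishingIdeal_zeroLocus_eq_radical] at hmem
  have hprime : Prime (rep q) := (rep_irreducible q).prime
  have hP : (Ideal.span {rep q}).IsPrime :=
    (Ideal.span_singleton_prime hprime.ne_zero).2 hprime
  rw [hP.radical, Ideal.mem_span_singleton, hPP, hprime.dvd_finsetProd_iff] at hmem
  obtain ⟨q', hq', hdvd⟩ := hmem
  have := eq_of_rep_dvd hdvd
  subst this
  simp at hq'

/-- The chosen point. -/
noncomputable def pt (q : JJ k m) : Fin (m + 2) → k := (exists_point q).choose

theorem pt_zero (q : JJ k m) : eval (pt q) (rep q) = 0 := (exists_point q).choose_spec.1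

theorem pt_ne (q q' : JJ k m) (h : code k m q' < code k m q) : eval (pt q) (rep q') ≠ 0 :=
  (exists_point q).choose_spec.2 q' h

theorem code_bound (h : DD k m) : h ≠ 0 → ∃ B : ℕ, ∀ q : JJ k m, eval (pt q) h = 0 →
    code k m q ≤ B := by
  induction h using WfDvdMonoid.induction_on_irreducible with
  | zero => intro h0; exact absurd rfl h0
  | unit u hu =>
    intro _
    refine ⟨0, fun q h0 => ?_⟩
    have := hu.map (eval (pt q))
    rw [h0] at this
    exact absurd this not_isUnit_zero
  | mul b i hb hi ih =>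
    intro _
    obtain ⟨B, hB⟩ := ih hb
    refine ⟨max B (code k m (cls i hi)), fun q h0 => ?_⟩
    rw [map_mul, mul_eq_zero] at h0
    rcases h0 with h0 | h0
    · have h1 : eval (pt q) (rep (cls i hi)) = 0 :=
        eval_eq_zero_of_dvd (rep_cls i hi).symm.dvd h0
      have h2 : ¬ code k m (cls i hi) < code k m q := fun h => pt_ne q _ h h1
      omega
    · have := hB q h0
      omega

theorem pt_injective {q q' : JJ k m} (h : pt q = pt q') : q = q' := by
  apply code_inj k m
  rcases lt_trichotomy (code k m q) (code k m q') with h1 | h1 | h1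
  · have := pt_ne q' q h1
    rw [← h] at this
    exact absurd (pt_zero q) this
  · exact h1
  · have := pt_ne q q' h1
    rw [h] at this
    exact absurd (pt_zero q') this

theorem dvd_code_le {h : DD k m} {B : ℕ} (hB : ∀ q : JJ k m, eval (pt q) h = 0 → code k m q ≤ B)
    {q : JJ k m} (hq : rep q ∣ h) : code k m q ≤ B :=
  hB q (eval_eq_zero_of_dvd hq (pt_zero q))

theorem big_aux (x : KK k m) (hx : x ≠ 0) :
    (∃ u : (DD k m)ˣ, x = algebraMap (DD k m) (KK k m) u) ∨
    ∃ q : JJ k m, 2 ≤ (ordAt (pt q)).ord x ∨ (ordAt (pt q)).ord x ≤ -2 := by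
  classical
  obtain ⟨g, ⟨h, hh⟩, hrel, hmk⟩ := IsFractionRing.exists_reduced_fraction (A := DD k m) x
  have hh0 : h ≠ 0 := nonZeroDivisors.ne_zero hh
  have hx' : x = algebraMap (DD k m) (KK k m) g / algebraMap (DD k m) (KK k m) h := by
    rw [← hmk, IsFractionRing.mk'_eq_div]
  have hg0 : g ≠ 0 := by
    rintro rfl
    apply hx; rw [hx']; simp
  simp only at hrel
  have hinj := IsFractionRing.injective (DD k m) (KK k m)
  have hgK : algebraMap (DD k m) (KK k m) g ≠ 0 := by
    rw [Ne, map_eq_zero_iff _ hinj]; exact hg0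
  have hhK : algebraMap (DD k m) (KK k m) h ≠ 0 := by
    rw [Ne, map_eq_zero_iff _ hinj]; exact hh0
  obtain ⟨Bg, hBg⟩ := code_bound g hg0
  obtain ⟨Bh, hBh⟩ := code_bound h hh0
  by_cases hne : ∃ q : JJ k m, rep q ∣ g ∨ rep q ∣ h
  · right
    set T : Set (JJ k m) := {q | rep q ∣ g ∨ rep q ∣ h} with hT
    have hTfin : T.Finite := by
      apply ((Set.finite_Iic (max Bg Bh)).preimage (code_inj k m).injOn).subset
      rintro q (hq | hq)
      · have := dvd_code_le hBg hq
        simp only [Set.mem_preimage, Set.mem_Iic]; omega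
      · have := dvd_code_le hBh hq
        simp only [Set.mem_preimage, Set.mem_Iic]; omega
    obtain ⟨q, hqT, hqmax⟩ := Set.exists_max_image T (code k m) hTfin hne
    have hnotboth : ¬ (rep q ∣ g ∧ rep q ∣ h) := by
      rintro ⟨h1, h2⟩
      exact (rep_irreducible q).not_isUnit (hrel h1 h2)
    -- the element not divisible by `rep q` does not vanish at the point
    have key : ∀ f : DD k m, f ≠ 0 → (∀ q', rep q' ∣ f → q' ∈ T) → ¬ rep q ∣ f →
        eval (pt q) f ≠ 0 := by
      intro f hf0 hfT hnd h0
      obtain ⟨q', hq', hev⟩ := exists_factor (pt q) f hf0 h0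
      have h1 := hqmax q' (hfT q' hq')
      rcases h1.lt_or_eq with h2 | h2
      · exact pt_ne q q' h2 hev
      · exact hnd (by rw [← code_inj k m h2]; exact hq')
    refine ⟨q, ?_⟩
    rw [hx', (ordAt (pt q)).ord_div hgK hhK]
    rcases hqT with hq | hq
    · left
      have h1 := ordAt_two_le (pt q) g hg0 (eval_eq_zero_of_dvd hq (pt_zero q))
      have h2 := (ordAt_zero_iff (pt q) h hh0).2
        (key h hh0 (fun q' hq' => Or.inr hq') (fun h => hnotboth ⟨hq, h⟩))
      omega
    · right
      have h1 := ordAt_two_le (pt q) h hh0 (eval_eq_zero_of_dvd hq (pt_zero q))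
      have h2 := (ordAt_zero_iff (pt q) g hg0).2
        (key g hg0 (fun q' hq' => Or.inl hq') (fun h => hnotboth ⟨h, hq⟩))
      omega
  · left
    push Not at hne
    have hunit : ∀ f : DD k m, f ≠ 0 → (∀ q : JJ k m, ¬ rep q ∣ f) → IsUnit f := by
      intro f hf0 hf
      by_contra hu
      obtain ⟨i, hi, hif⟩ := WfDvdMonoid.exists_irreducible_factor hu hf0
      exact hf (cls i hi) ((rep_cls i hi).dvd.trans hif)
    obtain ⟨u, hu⟩ := hunit g hg0 (fun q => (hne q).1)
    obtain ⟨v, hv⟩ := hunit h hh0 (fun q => (hne q).2)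
    refine ⟨u * v⁻¹, ?_⟩
    rw [hx', ← hu, ← hv, div_eq_iff (by rw [hv]; exact hhK), ← map_mul]
    congr 1
    rw [Units.val_mul, mul_assoc, Units.inv_mul, mul_one]

/-- A prime of height `m + 1` which is not maximal. -/
theorem exists_prime : ∃ P : Ideal (DD k m), P.IsPrime ∧ P.height = (m + 1 : ℕ) ∧
    ¬ P.IsMaximal := by
  have hdim : ringKrullDim (DD k m) = (m + 2 : ℕ) := by
    rw [MvPolynomial.ringKrullDim_of_isNoetherianRing, ringKrullDim_eq_zero_of_field]
    simp
  have hle : ((m + 2 : ℕ) : WithBot ℕ∞) ≤ Order.krullDim (PrimeSpectrum (DD k m)) := by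
    have : ringKrullDim (DD k m) = Order.krullDim (PrimeSpectrum (DD k m)) := rfl
    rw [← this, hdim]
  obtain ⟨l, hl⟩ := Order.le_krullDim_iff.1 hle
  have hlt : ∀ (i : ℕ) (h1 : i < l.length + 1) (h2 : i + 1 < l.length + 1),
      (l ⟨i, h1⟩).asIdeal < (l ⟨i + 1, h2⟩).asIdeal := by
    intro i h1 h2
    have : l ⟨i, h1⟩ < l ⟨i + 1, h2⟩ := l.strictMono (by simp [Fin.lt_def])
    exact this
  have hge : ∀ (i : ℕ) (h1 : i < l.length + 1), (i : ℕ∞) ≤ (l ⟨i, h1⟩).asIdeal.height := by
    intro i
    induction i with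
    | zero => intro h1; simp
    | succ i ih =>
      intro h1
      have h2 := ih (by omega)
      have h3 := hlt i (by omega) h1
      have := (l ⟨i, by omega⟩).isPrime
      have := (l ⟨i + 1, h1⟩).isPrime
      have h4 := Ideal.height_add_one_le_of_lt_of_isPrime h3
      push_cast
      exact le_trans (by gcongr) h4
  refine ⟨(l ⟨m + 1, by omega⟩).asIdeal, (l ⟨m + 1, by omega⟩).isPrime, ?_, ?_⟩
  · apply le_antisymm
    · have h3 := hlt (m + 1) (by omega) (by omega)
      have := (l ⟨m + 1, by omega⟩).isPrime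
      have hp2 := (l ⟨m + 1 + 1, by omega⟩).isPrime
      have h4 := Ideal.height_add_one_le_of_lt_of_isPrime h3
      have h5 := Ideal.height_le_ringKrullDim_of_ne_top hp2.ne_top
      rw [hdim] at h5
      have h6 : (l ⟨m + 1 + 1, by omega⟩).asIdeal.height ≤ ((m + 2 : ℕ) : ℕ∞) :=
        WithBot.coe_le_coe.1 h5
      have h7 := h4.trans h6
      have h8 : ((m + 2 : ℕ) : ℕ∞) = ((m + 1 : ℕ) : ℕ∞) + 1 := by push_cast; ring
      rw [h8] at h7
      exact (ENat.add_le_add_iff_right (by simp)).1 h7
    · exact hge (m + 1) (by omega)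
  · intro hmax
    have h3 := hlt (m + 1) (by omega) (by omega)
    have hp2 := (l ⟨m + 1 + 1, by omega⟩).isPrime
    exact h3.ne (hmax.eq_of_le hp2.ne_top h3.le)

variable (k m)

/-- The data used for dimension `m + 1`. -/
noncomputable def theSetup : Setup (DD k m) (KK k m) (JJ k m) where
  P := (exists_prime (k := k) (m := m)).choose
  hP := (exists_prime (k := k) (m := m)).choose_spec.1
  o q := ordAt (pt q)
  m q := vanishingIdeal k {pt q}
  hm q := inferInstance
  nonneg q f hf := ordAt_nonneg (pt q) f hf
  pos_iff q f hf := by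
    have h1 := ordAt_nonneg (pt q) f hf
    have h2 := ordAt_zero_iff (pt q) f hf
    have h3 : f ∈ vanishingIdeal k {pt q} ↔ eval (pt q) f = 0 := by
      rw [mem_vanishingIdeal_iff]
      simp [aeval_eq_eval]
    rw [h3]
    constructor
    · intro h
      by_contra hcon
      rw [h2.2 hcon] at h
      omega
    · intro h
      have := ordAt_two_le (pt q) f hf h
      omega
  inj := by
    intro q q' h
    apply pt_injective
    funext i
    have h1 : (X i - C (pt q i) : DD k m) ∈ vanishingIdeal k {pt q} := by
      rw [mem_vanishingIdeal_iff]; simp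
    simp only at h
    rw [h, mem_vanishingIdeal_iff] at h1
    have := h1 (pt q') rfl
    simp only [map_sub, aeval_X, aeval_C, Algebra.algebraMap_self, RingHom.id_apply] at this
    exact (sub_eq_zero.1 this).symm
  fin f hf := by
    obtain ⟨B, hB⟩ := code_bound f hf
    apply ((Set.finite_Iic B).preimage (code_inj k m).injOn).subset
    intro q hq
    have : eval (pt q) f = 0 := by
      have h1 : f ∈ vanishingIdeal k {pt q} := hq
      rw [mem_vanishingIdeal_iff] at h1
      simpa [aeval_eq_eval] using h1 (pt q) rfl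
    exact hB q this
  mP q hle := by
    have hspec := (exists_prime (k := k) (m := m)).choose_spec
    have hmax : (vanishingIdeal k {pt q}).IsMaximal := inferInstance
    have := hmax.eq_of_le hspec.1.ne_top hle
    exact hspec.2.2 (this ▸ hmax)
  unif q := ordAt_unif (pt q)
  big x hx := big_aux x hx

theorem theSetup_height : (theSetup k m).P.height = (m + 1 : ℕ) :=
  (exists_prime (k := k) (m := m)).choose_spec.2.1

end

theorem countable_algClosure : Countable (AlgebraicClosure ℚ) := by
  have h := Algebraic.countable ℚ (AlgebraicClosure ℚ)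
  have h2 : {x : AlgebraicClosure ℚ | IsAlgebraic ℚ x} = Set.univ := by
    ext x
    simp only [Set.mem_univ, iff_true]
    exact (AlgebraicClosure.isAlgebraic ℚ).isAlgebraic x
  rw [h2] at h
  exact Set.countable_univ_iff.1 h

/-- The rings. -/
theorem exists_ring (n : ℕ) (hn : 1 ≤ n) : ∃ (R : Type) (_ : CommRing R), IsDomain R ∧
    IsNoetherianRing R ∧ ringKrullDim R = n ∧
    ∀ a : R, a ≠ 0 → ¬ IsUnit a → ∃ b : R, b ∉ Ideal.span {a} ∧
      (Ideal.span {a} ⊔ Ideal.span {b}).IsMaximal := by
  obtain ⟨m, rfl⟩ : ∃ m, n = m + 1 := ⟨n - 1, by omega⟩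
  have := countable_algClosure
  set S := theSetup (AlgebraicClosure ℚ) m with hS
  refine ⟨S.R, inferInstance, inferInstance, S.noetherian, ?_, S.answer⟩
  exact S.krullDim (m + 1) (by omega) (theSetup_height _ _)

end Pool.Agent.Q238.Chomp
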